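import Pool.Agent.Lib.helper21.Bushy

set_option autoImplicit false

/-! Groups given by a semidecidable set of relators. -/

namespace Pool.Agent.H.MP_1220fe_lc

open Pool.Agent.Lib.helper21.PR Relation

attribute [local irreducible] Primrec Computable

theorem rtg_re {α : Type} [Primcodable α] {r : α → α → Prop} (h : RE fun z : α × α => r z.1 z.2) :
    RE fun z : α × α => ReflTransGen r z.1 z.2 := by
  refine RE.un ((RE.re (p := fun z : α × α => ∃ l : List α, l.getD l.length z.2 = z.2 ∧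
    l.getD 0 z.2 = z.1 ∧ ∀ i < l.length, r (l.getD i z.2) (l.getD (i + 1) z.2))
      (by fun_prop)).of_eq fun ⟨a, b⟩ => ⟨fun ⟨l, _, h1, h2⟩ => ?_, fun k => ?_⟩)
  · have : ∀ i ≤ l.length, ReflTransGen r a (l.getD i b) := fun i hi => by
      induction i with
      | zero => exact h1 ▸ .refl
      | succ i ih => exact (ih (by omega)).tail (h2 i hi)
    simpa using this _ le_rfl
  · dsimp only at k ⊢
    induction k using ReflTransGen.head_induction_on with
    | refl => exact ⟨[], by simp⟩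
    | head k _ ih =>
      obtain ⟨l, -, h1, h2⟩ := ih
      refine ⟨_ :: l, by simp, rfl, fun i hi => ?_⟩
      cases i with
      | zero => exact h1 ▸ k
      | succ i => exact h2 i (by simpa using hi)

variable {ι : Type} (R : List (ι × Bool) → Prop)

def St (u v : List (ι × Bool)) : Prop := ∃ a b p, (R p ∨ ∃ i β, p = [(i, β), (i, !β)]) ∧
  (u = a ++ b ∧ v = a ++ p ++ b ∨ v = a ++ b ∧ u = a ++ p ++ b)

theorem St.ctx {u v : List (ι × Bool)} (h : St R u v) (c d : List (ι × Bool)) :
    St R (c ++ u ++ d) (c ++ v ++ d) :=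
  let ⟨a, b, p, h1, h2⟩ := h
  ⟨c ++ a, b ++ d, p, h1, by rcases h2 with ⟨rfl, rfl⟩ | ⟨rfl, rfl⟩ <;> simp⟩

theorem rtg_ctx {u v : List (ι × Bool)} (h : ReflTransGen (St R) u v) (c d : List (ι × Bool)) :
    ReflTransGen (St R) (c ++ u ++ d) (c ++ v ++ d) := by
  induction h with
  | refl => exact .refl
  | tail _ h ih => exact ih.tail (h.ctx R _ _)

def cn : Con (FreeMonoid (ι × Bool)) where
  r u v := ReflTransGen (St R) u.toList v.toList
  iseqv := ⟨fun _ => .refl, fun {u v} h => by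
    generalize u.toList = u, v.toList = v at h
    induction h with
    | refl => exact .refl
    | tail _ h ih => exact ih.head (h.imp fun _ => .imp fun _ => .imp fun _ h => ⟨h.1, h.2.symm⟩),
    .trans⟩
  mul' {w x y z} h k := (rtg_ctx R h [] y.toList).trans
    (by simpa using rtg_ctx R k x.toList [])

def G : Type := (cn R).Quotient

theorem cn_rel {p : List (ι × Bool)} (h : R p ∨ ∃ i β, p = [(i, β), (i, !β)]) :
    (cn R).mk' (FreeMonoid.ofList p) = 1 :=
  (cn R).eq.2 (ReflTransGen.single ⟨[], [], p, h, .inr ⟨rfl, (List.append_nil p).symm⟩⟩)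

theorem unit (a : (cn R).Quotient) : IsUnit a := by
  obtain ⟨w, rfl⟩ := (cn R).mk'_surjective a
  induction w using FreeMonoid.inductionOn' with
  | one => simp
  | of_mul b w ih =>
    rw [map_mul]
    refine IsUnit.mul ⟨⟨_, (cn R).mk' (.of (b.1, !b.2)), ?_, ?_⟩, rfl⟩ ih
    · exact cn_rel R (.inr ⟨b.1, b.2, rfl⟩)
    · exact cn_rel R (p := [(b.1, !b.2), b]) (.inr ⟨b.1, !b.2, by simp⟩)

noncomputable instance : Group (G R) := @groupOfIsUnit _ (cn R).monoid (unit R)

def mk (w : List (ι × Bool)) : G R := (cn R).mk' (FreeMonoid.ofList w)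
def gn (i : ι) : G R := mk R [(i, true)]

variable {R}

theorem mk_app (u v : List (ι × Bool)) : mk R (u ++ v) = mk R u * mk R v := rfl
theorem mk_cons (a : ι × Bool) (v : List (ι × Bool)) : mk R (a :: v) = mk R [a] * mk R v := rfl
theorem mk_nil : mk R [] = 1 := rfl
theorem mk_rel {p : List (ι × Bool)} (h : R p) : mk R p = 1 := cn_rel R (.inl h)
theorem mk_inv (i : ι) : mk R [(i, false)] = (gn R i)⁻¹ :=
  eq_inv_of_mul_eq_one_right (cn_rel R (.inr ⟨i, true, rfl⟩))
theorem mk_surj (g : G R) : ∃ w, mk R w = g := (cn R).mk'_surjective g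

theorem ev_eq (w : List (ι × Bool)) :
    (w.map fun p => cond p.2 (gn R p.1) (gn R p.1)⁻¹).prod = mk R w := by
  induction w with
  | nil => rfl
  | cons a w ih =>
    obtain ⟨i, _ | _⟩ := a
    · simp [mk_cons (i, false) w, ih, mk_inv]
    · rw [mk_cons (i, true) w, ← ih]; rfl

theorem clos : Subgroup.closure (Set.range (gn R)) = ⊤ := by
  refine eq_top_iff.2 fun g _ => ?_
  obtain ⟨w, rfl⟩ := mk_surj g
  rw [← ev_eq]
  refine Subgroup.list_prod_mem _ fun x hx => ?_
  obtain ⟨⟨i, _ | _⟩, -, rfl⟩ := List.mem_map.1 hx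
  · exact Subgroup.inv_mem _ (Subgroup.subset_closure ⟨i, rfl⟩)
  · exact Subgroup.subset_closure ⟨i, rfl⟩

theorem lift {M : Type} [Monoid M] (f : ι × Bool → M) (h : ∀ i β, f (i, β) * f (i, !β) = 1)
    (k : ∀ p, R p → (p.map f).prod = 1) : ∃ φ : G R →* M, ∀ w, φ (mk R w) = (w.map f).prod := by
  refine ⟨(cn R).lift (FreeMonoid.lift f) fun u v e => ?_, fun w => FreeMonoid.lift_apply f _⟩
  rw [Con.ker_rel, FreeMonoid.lift_apply, FreeMonoid.lift_apply]
  change ReflTransGen _ _ _ at e
  generalize u.toList = u, v.toList = v at e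
  induction e with
  | refl => rfl
  | tail _ e ih =>
    obtain ⟨a, b, p, h1, h2⟩ := e
    have : (p.map f).prod = 1 := h1.elim (k p) fun ⟨i, β, e⟩ => by simp [e, h]
    rcases h2 with ⟨rfl, rfl⟩ | ⟨rfl, rfl⟩ <;> simpa [this] using ih

theorem wp_re [Primcodable ι] (h : RE R) : REPred fun w : List (ι × Bool) =>
    (w.map fun p => cond p.2 (gn R p.1) (gn R p.1)⁻¹).prod = 1 := by
  have h1 : RE fun z : List (ι × Bool) × List (ι × Bool) => St R z.1 z.2 :=
    RE.un (RE.re (by unfold St; fun_prop))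
  have h2 := rtg_re h1
  refine (RE.re (p := fun w => ReflTransGen (St R) w []) (r_pw (r_comp
    (f := fun w => (w, [])) h2 (by fun_prop)))).of_eq fun w => ?_
  rw [ev_eq]
  exact (cn R).eq.symm

end Pool.Agent.H.MP_1220fe_lc
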