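import Pool.Agent.H.MP_1220fe_lc.A

set_option autoImplicit false

/-! Steinberg words and a matrix model. -/

namespace Pool.Agent.H.MP_1220fe_lc

open Pool.Agent.Lib.helper21.PR Matrix Nat

attribute [local irreducible] Primrec Computable

def lt (b e r : ℕ) : Fin 61 × Bool := (⟨b % 3 * 20 + e % 2 * 10 + r % 10, by omega⟩, true)

def cm (u v : List (Fin 61 × Bool)) : List (Fin 61 × Bool) := u ++ v ++ u ++ v

def F (T T' : List (Fin 61 × Bool)) (b e : ℕ) (l : List ℕ) : ℕ × List (Fin 61 × Bool) :=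
  l.foldr (fun r w => (w.1 + 1, cm [lt (b + 1 + w.1 % 2) w.1 r] (T ++ w.2 ++ T'))) (e, [lt b e 2])

def E (T T' : List (Fin 61 × Bool)) (b e : ℕ) (l : List ℕ) : List (Fin 61 × Bool) :=
  (F T T' b (e + l.length) l).2

theorem F_fst (T T' : List (Fin 61 × Bool)) (b e : ℕ) (l : List ℕ) :
    (F T T' b e l).1 = e + l.length := by
  induction l with
  | nil => rfl
  | cons r l ih => exact congrArg (· + 1) ih

theorem F_cons (T T' : List (Fin 61 × Bool)) (b e r : ℕ) (l : List ℕ) : (F T T' b e (r :: l)).2 =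
    cm [lt (b + 1 + (e + l.length) % 2) (e + l.length) r] (T ++ (F T T' b e l).2 ++ T') := by
  rw [← F_fst T T' b e l]; rfl

theorem p_lt : Primrec fun z : ℕ × ℕ × ℕ => lt z.1 z.2.1 z.2.2 :=
  p_pair (Primrec.fin_val_iff.1 (by fun_prop)) (p_const _)

@[fun_prop] theorem p_E (T T' : List (Fin 61 × Bool)) {α : Type} [Primcodable α] {b e : α → ℕ}
    {l : α → List ℕ} (hb : Primrec b) (he : Primrec e) (hl : Primrec l) :
    Primrec fun a => E T T' (b a) (e a) (l a) := by
  have := p_lt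
  unfold E F cm
  fun_prop

section
variable {R : Type} [Ring R]

def el (a b : ZMod 3) (r : R) : Matrix (ZMod 3) (ZMod 3) R := 1 + single a b r

theorem el_zero (a b : ZMod 3) : el a b (0 : R) = 1 := by simp [el]

theorem el_sq (h : ∀ x : R, x + x = 0) {a b : ZMod 3} (k : a ≠ b) (r : R) :
    el a b r * el a b r = 1 := by
  have : single a b r + single a b r = 0 := by rw [← single_add, h, single_zero]
  simp [el, mul_add, add_mul, single_mul_single_of_ne _ _ _ _ k.symm, add_assoc, this]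

theorem el_cm (h : ∀ x : R, x + x = 0) {a b c : ZMod 3} (k1 : a ≠ b) (k2 : a ≠ c) (k3 : c ≠ b)
    (r s : R) : el a c r * el c b s * el a c r * el c b s = el a b (r * s) := by
  have h1 : ∀ x : Matrix (ZMod 3) (ZMod 3) R, x + x = 0 := fun x => Matrix.ext fun _ _ => h _
  have : ∀ x y : Matrix (ZMod 3) (ZMod 3) R, (1 + x) * (1 + y) * (1 + x) * (1 + y) = 1 + x * y +
    ((x + y + x * y) + (x + y + x * y)) + (x * x) * (1 + y) + (1 + x) * (y * x) * (1 + y) +
      (1 + x) * (y * y) := fun x y => by noncomm_ring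
  rw [el, el, this, h1, single_mul_single_same, single_mul_single_of_ne _ _ _ _ k2.symm,
    single_mul_single_of_ne _ _ _ _ k1.symm, single_mul_single_of_ne _ _ _ _ k3.symm]
  simp [el]

theorem el_conj {σ σ' : R} (h : σ * σ' = 1) (a b : ZMod 3) (r : R) :
    scalar _ σ * el a b r * scalar _ σ' = el a b (σ * r * σ') := by
  rw [el, mul_add, add_mul, mul_one, ← map_mul, h, map_one, el]
  congr 1
  ext i j
  simp [single_apply]

def rw (b e : ℕ) : ZMod 3 := (b + 1 + e % 2 : ℕ)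

theorem rw_ne (b e : ℕ) : rw b e ≠ b ∧ rw b (e + 1) ≠ rw b e ∧
    rw (b + 1 + e % 2) e = rw b (e + 1) := by
  have : ∀ b : ZMod 3, b + 1 ≠ b ∧ b + 1 + 1 ≠ b ∧ b + 1 + 1 + 1 + 1 = b + 1 ∧
    b + 1 ≠ b + 1 + 1 := by decide
  rcases Nat.mod_two_eq_zero_or_one e with h | h <;> simp [rw, h, Nat.add_mod, this]

variable (ρ : ℕ → R) (τ τ' : R)

def ml (a : Fin 61 × Bool) : Matrix (ZMod 3) (ZMod 3) R :=
  if a.1 = 60 then scalar _ (cond a.2 τ τ') else el (rw (a.1 / 20) (a.1 / 10)) (a.1 / 20 : ℕ)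
    (ρ (a.1 % 10))

theorem lt_ne (b e r : ℕ) : (lt b e r).1 ≠ 60 := fun h => by
  have := congrArg Fin.val h
  simp only [lt, Fin.coe_ofNat_eq_mod] at this
  omega

theorem ml_lt (b e r : ℕ) (β : Bool) :
    ml ρ τ τ' ((lt b e r).1, β) = el (rw b e) b (ρ (r % 10)) := by
  rw [ml, if_neg (lt_ne b e r)]
  simp only [lt, rw, show (b % 3 * 20 + e % 2 * 10 + r % 10) / 20 = b % 3 by omega,
    show (b % 3 * 20 + e % 2 * 10 + r % 10) / 10 % 2 = e % 2 by omega,
    show (b % 3 * 20 + e % 2 * 10 + r % 10) % 10 = r % 10 by omega]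
  simp

def vl (σ σ' : R) (l : List ℕ) : R := l.foldr (fun r v => ρ (r % 10) * (σ * v * σ')) (ρ 2)

theorem ml_F (h : ∀ x : R, x + x = 0) {T T' : List (Fin 61 × Bool)} {σ σ' : R}
    (h1 : (T.map (ml ρ τ τ')).prod = scalar _ σ) (h2 : (T'.map (ml ρ τ τ')).prod = scalar _ σ')
    (h3 : σ * σ' = 1) (b e : ℕ) (l : List ℕ) : ((F T T' b e l).2.map (ml ρ τ τ')).prod =
      el (rw b (e + l.length)) b (vl ρ σ σ' l) := by
  induction l with
  | nil => exact List.prod_singleton.trans (ml_lt ρ τ τ' b e 2 true)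
  | cons r l ih =>
    obtain ⟨k1, k2, k3⟩ := rw_ne b (e + l.length)
    have := ml_lt ρ τ τ' (b + 1 + (e + l.length) % 2) (e + l.length) r true
    simp only [F_cons, cm, List.map_append, List.prod_append, List.map_singleton,
      List.prod_singleton, h1, h2, ih, el_conj h3]
    rw [show lt _ _ _ = ((lt _ _ _).1, true) from rfl, this, k3]
    exact el_cm h (rw_ne b _).1 k2 k1 _ _

theorem ml_E (h : ∀ x : R, x + x = 0) {T T' : List (Fin 61 × Bool)} {σ σ' : R}
    (h1 : (T.map (ml ρ τ τ')).prod = scalar _ σ) (h2 : (T'.map (ml ρ τ τ')).prod = scalar _ σ')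
    (h3 : σ * σ' = 1) (b e : ℕ) (l : List ℕ) : ((E T T' b e l).map (ml ρ τ τ')).prod =
      el (rw b e) b (vl ρ σ σ' l) := by
  rw [E, ml_F ρ τ τ' h h1 h2 h3, rw, rw, show (e + l.length + l.length) % 2 = e % 2 by omega]

end

end Pool.Agent.H.MP_1220fe_lc
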