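import Pool.Agent.H.MP_1220fe_lc.B

set_option autoImplicit false

/-! The relators and their model. -/

namespace Pool.Agent.H.MP_1220fe_lc

open Pool.Agent.Lib.helper21.PR Matrix Nat Denumerable

attribute [local irreducible] Primrec Computable

def Dg (n v : ℕ) : Prop := v ∈ (ofNat Partrec.Code n).eval n

theorem dg_re : RE fun z : ℕ × ℕ => Dg z.1 z.2 := RE.un (r_graph
  (Partrec.Code.eval_part.comp (Computable.ofNat _) .id)).re

def W (b e r n : ℕ) : List (Fin 61 × Bool) := E [] [] b e (r :: 3 :: (List.replicate n 4 ++ [5, 6]))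

def Rl (X : List (Fin 61 × Bool) → Prop) (w : List (Fin 61 × Bool)) : Prop := X w ∨ ∃ b e r,
  (∃ n, Dg n 0 ∧ w = W b e r n ∨ Dg n 1 ∧ w = W b e r n ++ [((lt b e r).1, false)]) ∨
    ∃ β, w = (60, β) :: lt b e r :: (60, !β) :: E [] [] b e [cond β 7 8, r, cond β 8 7]

attribute [local irreducible] lt E in
theorem rl_re {X : List (Fin 61 × Bool) → Prop} (h : RE X) : RE (Rl X) := by
  have := dg_re
  have := p_lt
  exact RE.un (RE.re (by unfold Rl W; fun_prop))

abbrev En := Module.End (ZMod 2) (ℤ × ℕ → ZMod 2)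

open Classical in
noncomputable def op (c : ℤ × ℕ → Prop) (ψ : ℤ × ℕ → ℤ × ℕ) : En where
  toFun f p := if c p then f (ψ p) else 0
  map_add' f g := funext fun p => by by_cases h : c p <;> simp [h]
  map_smul' a f := funext fun p => by by_cases h : c p <;> simp [h]

variable {c c' : ℤ × ℕ → Prop} {ψ ψ' : ℤ × ℕ → ℤ × ℕ}

theorem op_mul : op c ψ * op c' ψ' = op (fun p => c p ∧ c' (ψ p)) fun p => ψ' (ψ p) :=
  LinearMap.ext fun f => funext fun p => by
    by_cases h : c p <;> by_cases k : c' (ψ p) <;> simp [op, h, k]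

theorem op_congr (h : ∀ p, c p ↔ c' p) (k : ∀ p, c p → ψ p = ψ' p) : op c ψ = op c' ψ' :=
  LinearMap.ext fun f => funext fun p => by
    by_cases e : c p <;> simp [op, ← h, e]
    rw [k p e]

theorem op_one (h : ∀ p, c p) (k : ∀ p, ψ p = p) : op c ψ = 1 :=
  LinearMap.ext fun f => funext fun p => by simp [op, h, k]

theorem op_zero (h : ∀ p, ¬ c p) : op c ψ = 0 :=
  LinearMap.ext fun f => funext fun p => by simp [op, h]

theorem en2 (x : En) : x + x = 0 :=
  LinearMap.ext fun _ => funext fun _ => CharTwo.add_self_eq_zero _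

noncomputable def sh (k : ℤ) : En := op (fun _ => True) fun p => (p.1 + k, p.2)

theorem sh_mul (k : ℤ) : sh k * sh (-k) = 1 := op_mul.trans (op_one (by simp) (by simp))

noncomputable def ρ (k : ℤ) (z : ℤ → ℕ) : ℕ → En
  | 0 => op (fun p => z p.1 = 0) id
  | 1 => op (fun p => z p.1 = 1) id
  | 3 => op (fun _ => True) fun p => (p.1, pair 0 p.2)
  | 4 => op (fun _ => True) fun p => (p.1, pair (p.2.unpair.1 + 1) p.2.unpair.2)
  | 5 => op (fun p => Dg p.2.unpair.1 1) id
  | 6 => op (fun _ => True) fun p => (p.1, p.2.unpair.2)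
  | 7 => sh k
  | 8 => sh (-k)
  | _ => 1

variable (k : ℤ) (z : ℤ → ℕ)

theorem vl_rep (n : ℕ) : vl (ρ k z) 1 1 (List.replicate n 4 ++ [5, 6]) =
    op (fun p => Dg (p.2.unpair.1 + n) 1) fun p => (p.1, p.2.unpair.2) := by
  induction n with
  | zero => simp [vl, ρ, op_mul]
  | succ n ih =>
    rw [List.replicate_succ, List.cons_append, vl, List.foldr_cons, ← vl, ih]
    simp [ρ, op_mul, add_assoc, add_comm 1]

noncomputable def md : Fin 61 × Bool → Matrix (ZMod 3) (ZMod 3) En :=
  ml (ρ k z) (sh k) (sh (-k))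

theorem md_E (b e : ℕ) (l : List ℕ) : ((E [] [] b e l).map (md k z)).prod =
    el (rw b e) b (vl (ρ k z) 1 1 l) := ml_E _ _ _ en2 (by simp) (by simp) (by simp) b e l

theorem md_W (b e r n : ℕ) : ((W b e r n).map (md k z)).prod =
    el (rw b e) b (ρ k z (r % 10) * op (fun _ => Dg n 1) id) := by
  rw [W, md_E, vl, List.foldr_cons, List.foldr_cons, ← vl, vl_rep]
  simp [ρ, op_mul]
  rfl

theorem model {X : List (Fin 61 × Bool) → Prop} (h : ∀ w, X w → (w.map (md k z)).prod = 1) :
    ∃ ψ : G (Rl X) →* Matrix (ZMod 3) (ZMod 3) En, ∀ w, ψ (mk _ w) = (w.map (md k z)).prod := by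
  have h1 := sh_mul k
  have h2 : sh (-k) * sh k = 1 := by simpa using sh_mul (-k)
  refine lift _ (fun i β => ?_) fun w hw => ?_
  · by_cases e : i = 60
    · cases β <;> simp only [md, ml, e, if_true, ← map_mul, Bool.not_true, Bool.not_false,
        cond_true, cond_false, h1, h2, map_one]
    · simpa [md, ml, e] using el_sq en2 (rw_ne _ _).1 _
  rcases hw with hw | ⟨b, e, r, ⟨n, ⟨g, rfl⟩ | ⟨g, rfl⟩⟩ | ⟨β, rfl⟩⟩
  · exact h w hw
  · rw [md_W, op_zero fun _ g' => by simpa using Part.mem_unique g g', mul_zero, el_zero]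
  · rw [List.map_append, List.prod_append, md_W, op_one (ψ := id) (fun _ => g) fun _ => rfl,
      mul_one]
    exact (congrArg _ (List.prod_singleton.trans (ml_lt _ _ _ b e r false))).trans
      (el_sq en2 (rw_ne _ _).1 _)
  · have h3 : md k z (lt b e r) = _ := ml_lt _ _ _ b e r true
    simp only [List.map_cons, List.prod_cons, md_E, h3, ← mul_assoc]
    cases β
    · rw [show md k z (60, false) = scalar _ (sh (-k)) from rfl,
        show md k z (60, !false) = scalar _ (sh k) from rfl, el_conj h2]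
      simpa [vl, ρ, mul_assoc] using el_sq en2 (rw_ne _ _).1 _
    · rw [show md k z (60, true) = scalar _ (sh k) from rfl,
        show md k z (60, !true) = scalar _ (sh (-k)) from rfl, el_conj h1]
      simpa [vl, ρ, mul_assoc] using el_sq en2 (rw_ne _ _).1 _

def wt (a : Fin 61 × Bool) : ℤ := if a.1 = 60 then cond a.2 1 (-1) else 0

theorem wt_lt (b e r : ℕ) (β : Bool) : wt ((lt b e r).1, β) = 0 := if_neg (lt_ne b e r)

theorem wt_E {T T' : List (Fin 61 × Bool)} (h : (T.map wt).sum + (T'.map wt).sum = 0) (b e : ℕ)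
    (l : List ℕ) : ((E T T' b e l).map wt).sum = 0 := by
  rw [E]
  generalize e + l.length = e
  have : ∀ b e r, wt (lt b e r) = 0 := fun b e r => wt_lt b e r true
  induction l with
  | nil => simp [F, this]
  | cons r l ih => simp [F_cons, cm, this, ih]; omega

theorem zeta {X : List (Fin 61 × Bool) → Prop} (h : ∀ w, X w → (w.map wt).sum = 0) :
    ∃ ζ : G (Rl X) → ℤ, (∀ g h, ζ (g * h) = ζ g + ζ h) ∧ ∀ w, ζ (mk _ w) = (w.map wt).sum := by
  have h1 : ∀ w : List (Fin 61 × Bool), (w.map fun a => Multiplicative.ofAdd (wt a)).prod =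
      Multiplicative.ofAdd (w.map wt).sum := fun w => by induction w <;> simp [*]
  have : ∀ b e r, wt (lt b e r) = 0 := fun b e r => wt_lt b e r true
  obtain ⟨ψ, h2⟩ := lift (R := Rl X) (fun a => Multiplicative.ofAdd (wt a)) (fun i β => by
    by_cases e : i = 60 <;> cases β <;> simp [wt, e]) fun w hw => by
      rw [h1, ofAdd_eq_one]
      rcases hw with hw | ⟨b, e, r, ⟨n, ⟨g, rfl⟩ | ⟨g, rfl⟩⟩ | ⟨β, rfl⟩⟩
      · exact h w hw
      · exact wt_E rfl ..
      · simp [W, wt_E, wt_lt]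
      · cases β <;> simp [wt_E, this] <;> rfl
  exact ⟨fun g => (ψ g).toAdd, fun g h => by simp, fun w => congrArg _ ((h2 w).trans (h1 w))⟩

end Pool.Agent.H.MP_1220fe_lc
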