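import Pool.Agent.H.MP_1220fe_lc.C
import Pool.Agent.H.MP_65fbb9_lc.A

set_option autoImplicit false

/-! Medvedev reducibility and bushy classes. -/

namespace Pool.Agent.H.MP_1220fe_lc

open Pool.Agent.Lib.helper21.PR Pool.Agent.H.MP_65fbb9_lc Encodable Denumerable

attribute [local irreducible] Primrec Computable

def pf (y : ℕ → ℕ) (m : ℕ) : List ℕ := List.ofFn fun j : Fin m => y j.val

/-- Medvedev reducibility: a computable monotone map on strings sends every member of `Q`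
to a member of `P` -/
def red (P Q : Set (ℕ → ℕ)) : Prop := ∃ f : List ℕ → List ℕ, Computable f ∧
  (∀ σ τ : List ℕ, σ <+: τ → f σ <+: f τ) ∧ ∀ y ∈ Q, ∃ x ∈ P, ∀ n : ℕ, ∃ m : ℕ, ∀ i < n,
    (f (List.ofFn fun j : Fin m => y j.val))[i]? = some (x i)

variable {x y : ℕ → ℕ} {P Q S : Set (ℕ → ℕ)} {f : List ℕ → List ℕ}

theorem pf_eq (y : ℕ → ℕ) (m : ℕ) : pf y m = (List.range m).map y :=
  List.ext_getElem (by simp [pf]) fun i _ _ => by simp [pf]

theorem pf_pre {m : ℕ} {l : List ℕ} (h : ∀ i < m, l[i]? = some (x i)) : pf x m <+: l :=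
  List.prefix_iff_getElem?.2 fun i hi => by
    simpa [pf] using h i (by simpa [pf] using hi)

theorem pf_mono {m n : ℕ} (h : m ≤ n) : pf x m <+: pf x n :=
  pf_pre fun i hi => by simp [pf_eq, hi.trans_le h]

theorem pre_get {l l' : List ℕ} (h : l <+: l') {i a : ℕ} (k : l[i]? = some a) : l'[i]? = some a := by
  obtain ⟨t, rfl⟩ := h
  rwa [List.getElem?_append_left (List.getElem?_eq_some_iff.1 k).1]

theorem lim (h : ∀ σ τ, σ <+: τ → f σ <+: f τ)
    (k : ∀ n, ∃ m, ∀ i < n, (f (pf y m))[i]? = some (x i)) {m i a : ℕ}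
    (e : (f (pf y m))[i]? = some a) : a = x i :=
  let ⟨n, hn⟩ := k (i + 1)
  Option.some.inj ((pre_get (h _ _ (pf_mono (le_max_left m n))) e).symm.trans
    (pre_get (h _ _ (pf_mono (le_max_right m n))) (hn i (by omega))))

theorem red.trans (h : red P Q) (k : red Q S) : red P S := by
  obtain ⟨f, a1, a2, a3⟩ := h
  obtain ⟨g, b1, b2, b3⟩ := k
  refine ⟨fun σ => f (g σ), a1.comp b1, fun _ _ e => a2 _ _ (b2 _ _ e), fun y hy => ?_⟩
  obtain ⟨x, c1, c2⟩ := b3 y hy
  obtain ⟨w, c3, c4⟩ := a3 x c1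
  refine ⟨w, c3, fun n => ?_⟩
  obtain ⟨m, c5⟩ := c4 n
  exact (c2 m).imp fun k c6 i hi => pre_get (a2 _ _ (pf_pre c6)) (c5 i hi)

theorem red.comp (h : red P Q) (k : y ∈ Q) (e : Computable y) : ∃ x ∈ P, Computable x := by
  obtain ⟨f, a1, a2, a3⟩ := h
  obtain ⟨x, c1, c2⟩ := a3 y k
  have h1 : CI O f := Computable.ci a1
  have h2 : CI O y := Computable.ci e
  refine ⟨x, c1, comp_nat (CI.mk (R := fun i v => ∃ m, (f ((List.range m).map y))[i]? = some v)
    (by fun_prop) fun i v => ?_)⟩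
  simp only [← pf_eq]
  exact ⟨fun ⟨m, h⟩ => (lim a2 c2 h).symm, fun e => e ▸ (c2 (i + 1)).imp fun m h => h i (by omega)⟩

theorem red_tt {g : List ℕ → ℕ → ℕ} (h : Primrec fun z : List ℕ × ℕ => g z.1 z.2)
    (k : ∀ y ∈ Q, (fun n => g (pf y (n + 1)) n) ∈ P) : red P Q := by
  refine ⟨fun σ => (List.range σ.length).map fun n => g (σ.take (n + 1)) n,
    Primrec.to_comp (by fun_prop),
    fun σ τ e => List.prefix_iff_getElem?.2 fun i hi => ?_, fun y hy => ⟨_, k y hy, fun n =>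
      ⟨n, fun i hi => ?_⟩⟩⟩
  · obtain ⟨t, rfl⟩ := e
    have : i < σ.length := by simpa using hi
    simp [List.take_append_of_le_length (show i + 1 ≤ σ.length from this),
      show i < σ.length + t.length by omega]
  · have := List.prefix_iff_eq_take.1 (pf_mono (x := y) (show i + 1 ≤ n from hi))
    simp only [pf, List.length_ofFn] at this
    simp [hi, pf, ← this]

/-- functions below `3 * N e + 2` avoiding the finite sets `B e` -/
def Bu (N : ℕ → ℕ) (B : ℕ → Finset ℕ) : Set (ℕ → ℕ) := {d | ∀ e, d e < 3 * N e + 2 ∧ d e ∉ B e}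

theorem nosep {N : ℕ → ℕ} {B : ℕ → Finset ℕ} (hN : Primrec N) (hB : ∀ e, (B e).card ≤ N e)
    {S : ℕ → ℕ → List ℕ → Prop} (hS : ∀ c, RE fun z : ℕ × List ℕ => S c z.1 z.2)
    (h1 : ∀ d ∈ Bu N B, ∀ n, ∃ m, S 0 n (pf d m) ∨ S 1 n (pf d m))
    (h2 : ∀ d ∈ Bu N B, ∀ n m, (Dg n 0 → ¬ S 1 n (pf d m)) ∧ (Dg n 1 → ¬ S 0 n (pf d m))) :
    False := by
  let T : List ℕ → Prop := fun τ => ∀ i < τ.length, τ.getD i 0 < 3 * N i + 2
  let Gd : List ℕ → Prop := fun τ => ∀ i < τ.length, τ.getD i 0 < 3 * N i + 2 ∧ τ.getD i 0 ∉ B i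
  have a1 : ∀ σ a, Gd σ → a < 3 * N σ.length + 2 → a ∉ B σ.length → Gd (σ ++ [a]) :=
    fun σ a k1 k2 k3 i hi => by
      rcases lt_or_ge i σ.length with c | c
      · rw [List.getD_append _ _ _ _ c]; exact k1 i c
      · obtain rfl : i = σ.length := by simp at hi; omega
        simpa using ⟨k2, k3⟩
  have a2 : ∀ e (F : Finset ℕ), N e < F.card → ∃ a ∈ F, a ∉ B e := fun e F h =>
    Finset.exists_mem_notMem_of_card_lt_card ((hB e).trans_lt h)
  have a3 : ∀ c n σ, Big T (fun e => N e + 1) (S c n) σ → Gd σ →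
      ∃ d ∈ Bu N B, ∃ m, S c n (pf d m) := fun c n σ h => by
    induction h with
    | @base σ h =>
      intro k
      choose g g1 g2 using fun e => a2 e (Finset.range (3 * N e + 2)) (by simp; omega)
      refine ⟨fun i => if i < σ.length then σ.getD i 0 else g i, fun e => ?_, σ.length, ?_⟩
      · dsimp only
        split_ifs with c
        exacts [k e c, ⟨Finset.mem_range.1 (g1 e), g2 e⟩]
      · rwa [show pf _ σ.length = σ from List.ext_getElem (by simp [pf]) fun i _ _ => by simp [pf]]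
    | @step σ F k1 k2 _ ih =>
      intro k
      obtain ⟨a, k3, k4⟩ := a2 _ F k1
      exact ih a k3 (a1 σ a k (by simpa using k2 a k3 σ.length (by simp)) k4)
  have a4 : ∀ n, Big T (fun e => N e + 1) (S 0 n) [] ∨ Big T (fun e => N e + 1) (S 1 n) [] :=
    fun n => Big.or (not_not.1 fun h => by
      have : ∀ σ, ∃ a, Gd σ ∧ ¬ Big T (fun e => N e + 1 + (N e + 1)) (fun τ => S 0 n τ ∨ S 1 n τ) σ →
          Gd (σ ++ [a]) ∧ ¬ Big T (fun e => N e + 1 + (N e + 1)) (fun τ => S 0 n τ ∨ S 1 n τ)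
            (σ ++ [a]) := fun σ => by
        by_contra k
        simp only [not_exists, Classical.not_imp, not_and, not_not] at k
        have b1 := fun a (ha : a ∈ Finset.range (3 * N σ.length + 2) \ B σ.length) =>
          a1 σ a (k 0).1.1 (Finset.mem_range.1 (Finset.mem_sdiff.1 ha).1) (Finset.mem_sdiff.1 ha).2
        have b2 := Finset.le_card_sdiff (B σ.length) (Finset.range (3 * N σ.length + 2))
        have b3 := hB σ.length
        exact (k 0).1.2 (.step _ (by rw [Finset.card_range] at b2; omega)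
          (fun a ha i hi => (b1 a ha i hi).1) fun a ha => (k a).2 (b1 a ha))
      choose nx hn using this
      let z : ℕ → List ℕ := fun k => Nat.rec [] (fun _ σ => σ ++ [nx σ]) k
      have b1 : ∀ k, (z k).length = k := fun k => by induction k <;> simp_all [z]
      have b2 : ∀ k, Gd (z k) ∧ ¬ Big T _ _ (z k) := fun k =>
        Nat.rec ⟨by simp [Gd, z], h⟩ (fun k ih => hn _ ih) k
      obtain ⟨d, b3, b4⟩ := chain z (fun k => List.prefix_append _ _) fun k => (b1 k).ge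
      obtain ⟨m, b5⟩ := h1 d (fun e => b3 e ▸ (b2 (e + 1)).1 e (e.lt_succ_self.trans_eq (b1 (e + 1)).symm)) n
      refine (b2 m).2 (.base ?_)
      rwa [show z m = pf d m from List.ext_getElem (by simp [pf, b1]) fun i c _ => by
        simpa [pf, c] using b4 m i c])
  have a5 : ∀ c v : ℕ, Partrec fun n => (Part.assert (Big T (fun e => N e + 1) (S c n) [])
      fun _ => Part.some ()).map fun _ => v := fun c v =>
    Partrec.map (r_pw (r_comp (f := fun n : ℕ => (n, ([] : List ℕ))) (big_re (T := fun _ => T)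
      (P := fun _ j k => N j + 1 ≤ k) (RE.un (RE.re (by unfold T; fun_prop))) (hS c)
        (RE.un (RE.re (by fun_prop))) (fun _ _ _ => Iff.rfl) (by simp)) (by fun_prop))).re
          (Computable.const v).to₂
  obtain ⟨k, b1, b2⟩ := Partrec.merge' (a5 0 1) (a5 1 0)
  obtain ⟨c, hc⟩ := Nat.Partrec.Code.exists_code.1 (Partrec.nat_iff.1 b1)
  obtain ⟨v, b3⟩ := Part.dom_iff_mem.1 ((b2 (encode c)).2.2 (by
    simpa [Part.assert] using a4 (encode c)))
  have b4 : Dg (encode c) v := by rwa [Dg, ofNat_encode, hc]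
  rcases (b2 _).1 v b3 with h | h <;> simp only [Part.mem_map_iff, Part.mem_assert_iff] at h <;>
    obtain ⟨_, ⟨h, -⟩, rfl⟩ := h <;> obtain ⟨d, c1, m, c2⟩ := a3 _ _ _ h (by simp [Gd])
  exacts [(h2 d c1 _ m).2 b4 c2, (h2 d c1 _ m).1 b4 c2]

end Pool.Agent.H.MP_1220fe_lc
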