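import Pool.Agent.H.MP_1220fe_lc.D

set_option autoImplicit false

/-! Configurations on the group are either invariant or separate an inseparable pair. -/

namespace Pool.Agent.H.MP_1220fe_lc

open Pool.Agent.Lib.helper21.PR Encodable Denumerable Matrix

attribute [local irreducible] Primrec Computable

/-- a configuration read along the enumeration of all words in the generators -/
def hat {H : Type} [Group H] {r k : ℕ} (gens : Fin r → H) (x : H → Fin k) (n : ℕ) : ℕ :=
  (Encodable.decode n : Option (List (Fin r × Bool))).elim 0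
    fun w => (x (w.map fun p => cond p.2 (gens p.1) (gens p.1)⁻¹).prod).val

/-- the effectively closed subset of Cantor space avoiding the strings marked by `c` -/
def pi (c : List ℕ → Bool) : Set (ℕ → ℕ) := {x : ℕ → ℕ | (∀ n, x n ≤ 1) ∧
  ∀ m : ℕ, c (List.ofFn fun j : Fin m => x j.val) = false}

variable {X : List (Fin 61 × Bool) → Prop} {k : ℕ} {N : ℕ → ℕ} {B : ℕ → Finset ℕ}

theorem hat_enc (x : G (Rl X) → Fin k) (w : List (Fin 61 × Bool)) :
    hat (gn _) x (encode w) = x (mk _ w) := by simp [hat, ev_eq]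

def Inv {A : Type} (x : G (Rl X) → A) : Prop := ∀ g h b e r, x (g * mk _ [lt b e r] * h) = x (g * h)

attribute [local irreducible] lt E in
theorem rigid {S : Set (ℕ → ℕ)} (hN : Primrec N) (hB : ∀ e, (B e).card ≤ N e) (h : red S (Bu N B))
    (hS : ∀ y ∈ S, ∃ k, ∃ x : G (Rl X) → Fin k, y = hat (gn _) x ∧ ¬ Inv x) : False := by
  obtain ⟨f, a1, a2, a3⟩ := h
  have := p_lt
  let P : ℕ → ℕ → List ℕ → Prop := fun c n l => ∃ (u v : List (Fin 61 × Bool)) (b e r a a' a'' : ℕ),
    l[encode (u ++ v)]? = some a ∧ l[encode (u ++ [lt b e r] ++ v)]? = some a' ∧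
      l[encode (u ++ W b e r n ++ v)]? = some a'' ∧ a' ≠ a ∧ (a'' = a ↔ c = 0)
  have h1 : ∀ c, RE fun z : ℕ × List ℕ => P c z.1 z.2 := fun c =>
    RE.un (RE.re (by unfold P W; fun_prop))
  refine nosep hN hB (S := fun c n σ => P c n (f σ)) (fun c => r_comp
    (f := fun z : ℕ × List ℕ => (z.1, f z.2)) (h1 c) (by fun_prop)) (fun d hd n => ?_)
      fun d hd n m => ?_ <;> obtain ⟨y, b1, b2⟩ := a3 d hd <;> obtain ⟨k, x, rfl, b3⟩ := hS y b1
  · simp only [Inv, not_forall] at b3
    obtain ⟨g, h, b, e, r, b3⟩ := b3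
    obtain ⟨u, rfl⟩ := mk_surj g
    obtain ⟨v, rfl⟩ := mk_surj h
    obtain ⟨m, b4⟩ := b2 (encode (u ++ v) + encode (u ++ [lt b e r] ++ v) +
      encode (u ++ W b e r n ++ v) + 1)
    have b5 : ∀ c, (hat (gn _) x (encode (u ++ W b e r n ++ v)) = hat (gn _) x (encode (u ++ v)) ↔
        c = 0) → P c n (f (pf d m)) := fun c hc => ⟨u, v, b, e, r, _, _, _, b4 _ (by omega),
      b4 _ (by omega), b4 _ (by omega), by
        rw [hat_enc, hat_enc]; exact fun k => b3 (Fin.ext k), hc⟩
    exact ⟨m, (em _).imp (fun k => b5 0 (iff_of_true k rfl)) fun k => b5 1 (iff_of_false k (by omega))⟩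
  · refine ⟨fun g ⟨u, v, b, e, r, a, a', a'', c1, c2, c3, c4, c5⟩ => ?_,
      fun g ⟨u, v, b, e, r, a, a', a'', c1, c2, c3, c4, c5⟩ => ?_⟩ <;>
      rw [lim a2 b2 c1, lim a2 b2 c3] at c5 <;> rw [lim a2 b2 c1, lim a2 b2 c2] at c4 <;>
      simp only [hat_enc, mk_app] at c4 c5
    · rw [mk_rel (R := Rl X) (.inr ⟨b, e, r, .inl ⟨n, .inl ⟨g, rfl⟩⟩⟩)] at c5
      simp at c5
    · have := mk_rel (R := Rl X) (.inr ⟨b, e, r, .inl ⟨n, .inr ⟨g, rfl⟩⟩⟩)
      rw [mk_app, mk_inv, mul_inv_eq_one] at this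
      rw [this] at c5
      unfold lt at c4 c5
      exact c4 (c5.2 trivial)

theorem lt_of_ne {i : Fin 61} (h : i ≠ 60) : (i, true) = lt (i / 20) (i / 10) i := by
  have : i.val ≠ 60 := fun e => h (Fin.ext e)
  exact Prod.ext (Fin.ext (by simp only [lt]; omega)) rfl

theorem Inv.pow {A : Type} {x : G (Rl X) → A} (h : Inv x) (w : List (Fin 61 × Bool)) :
    ∀ g, x (g * mk _ w) = x (g * gn _ 60 ^ (w.map wt).sum) := by
  induction w with
  | nil => simp [mk_nil]
  | cons a w ih =>
    intro g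
    obtain ⟨i, β⟩ := a
    rw [mk_cons, ← mul_assoc]
    by_cases e : i = 60
    · rw [ih]
      cases β <;> simp [e, wt, mk_inv, _root_.zpow_add, mul_assoc, gn]
    · have := fun g => h g (mk _ w) (i / 20) (i / 10) i
      rw [← lt_of_ne e] at this
      cases β
      · rw [mk_inv, ← this, gn, inv_mul_cancel_right, ih]
        simp [e, wt]
      · simp [this, ih, e, wt]

def aw (n : ℕ) : List (Fin 61 × Bool) := E [] [] 0 0 (List.replicate n 4)

theorem aw_inj {j : ℤ} {z : ℤ → ℕ} (h : ∀ w, X w → (w.map (md j z)).prod = 1) :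
    Function.Injective fun n => mk (Rl X) (aw n) := fun n m e => by
  obtain ⟨ψ, h1⟩ := model j z h
  have h2 : ∀ n, vl (ρ j z) 1 1 (List.replicate n 4) =
      op (fun _ => True) fun p => (p.1, Nat.pair (p.2.unpair.1 + n) p.2.unpair.2) := fun n => by
    induction n with
    | zero => exact (op_one (by simp) (by simp)).symm
    | succ n ih =>
      rw [List.replicate_succ, vl, List.foldr_cons, ← vl, ih]
      simp [ρ, op_mul, add_assoc, add_comm 1]
  have h3 := congrArg (fun g => ψ g (rw 0 0) (0 : ℕ) (fun p => if p.2.unpair.1 = n then 1 else 0)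
    (0, Nat.pair 0 0)) e
  simpa [h1, aw, md_E, el, h2, op, eq_comm] using h3

theorem pf_len (y : ℕ → ℕ) (m : ℕ) : (pf y m).length = m := List.length_ofFn

theorem pf_getD (y : ℕ → ℕ) {m i : ℕ} (h : i < m) : (pf y m).getD i 0 = y i := by simp [pf, h]

theorem bu_ne (hB : ∀ e, (B e).card ≤ N e) : (Bu N B).Nonempty := by
  choose g g1 g2 using fun e => Finset.exists_mem_notMem_of_card_lt_card
    (t := Finset.range (3 * N e + 2)) ((hB e).trans_lt (by simp; omega))
  exact ⟨g, fun e => ⟨Finset.mem_range.1 (g1 e), g2 e⟩⟩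

theorem cantor : ∃ c B, Computable c ∧ (∀ e, Finset.card (B e) ≤ 2) ∧ red (pi c) (Bu (fun _ => 2) B) ∧
    ∀ x ∈ pi c, ¬ Computable x := by
  classical
  refine ⟨fun σ => cd (∃ e < σ.length, 2 * e + 1 < σ.length ∧ ((ofNat Nat.Partrec.Code e).evaln
    σ.length e).map (· % 4) = some (σ.getD (2 * e) 0 + 2 * σ.getD (2 * e + 1) 0)),
    fun e => if h : ∃ v, Dg e v then {h.choose % 4, h.choose % 4 + 4} else ∅,
    Primrec.to_comp (by fun_prop), fun e => ?_, red_tt (g := fun σ n => σ.getD (n / 2) 0 /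
      2 ^ (n % 2) % 2) (by fun_prop) fun d hd => ⟨fun n => by dsimp only; omega, fun m => ?_⟩, fun x hx h => ?_⟩
  · dsimp only
    split_ifs
    exacts [Finset.card_le_two, by simp]
  · refine Bool.eq_false_iff.2 fun h => ?_
    obtain ⟨e, -, h1, h2⟩ := cd_true.1 h
    obtain ⟨v, h3, h4⟩ := Option.map_eq_some_iff.1 h2
    have h5 : ∃ v, Dg e v := ⟨v, Nat.Partrec.Code.evaln_sound h3⟩
    have h6 := hd e
    have h7 : h5.choose = v := Part.mem_unique h5.choose_spec (Nat.Partrec.Code.evaln_sound h3)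
    rw [List.length_ofFn] at h1
    let y := fun n => (pf d (n + 1)).getD (n / 2) 0 / 2 ^ (n % 2) % 2
    change _ = (pf y m).getD _ _ + 2 * (pf y m).getD _ _ at h4
    rw [pf_getD _ h1, pf_getD _ (by omega)] at h4
    unfold y at h4
    rw [pf_getD _ (by omega), pf_getD _ (by omega)] at h4
    simp [h5, h7, show (2 * e + 1) / 2 = e by omega, Nat.add_mod] at h4 h6
    omega
  · obtain ⟨c, hc⟩ := Nat.Partrec.Code.exists_code.1 (Partrec.nat_iff.1 (Computable.partrec
      (f := fun n => x (2 * n) + 2 * x (2 * n + 1)) (by fun_prop)))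
    obtain ⟨s, hs⟩ := Nat.Partrec.Code.evaln_complete.1 (show _ ∈ c.eval (encode c) by
      rw [hc]; exact Part.mem_some _)
    have := hx.1 (2 * encode c)
    have := hx.1 (2 * encode c + 1)
    refine Bool.eq_false_iff.1 (hx.2 (s + 2 * encode c + 2)) (cd_true.2 ⟨encode c, by simp; omega,
      by simp, ?_⟩)
    change _ = some ((pf _ _).getD _ _ + 2 * (pf _ _).getD _ _)
    rw [ofNat_encode, Nat.Partrec.Code.evaln_mono (by simp; omega) hs, pf_getD _ (by omega),
      pf_getD _ (by omega), Option.map_some]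
    exact congrArg _ (by dsimp only; omega)

end Pool.Agent.H.MP_1220fe_lc
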