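import Pool.Agent.H.MP_1220fe_lc.E

set_option autoImplicit false

/-! A group on which every computable configuration is constant. -/

namespace Pool.Agent.H.MP_1220fe_lc

open Pool.Agent.Lib.helper21.PR Encodable Matrix

attribute [local irreducible] Primrec Computable

def XK (w : List (Fin 61 × Bool)) : Prop := w = [(60, true)] ∨
  ∃ n m, w = aw n ++ aw n ∨ w = aw n ++ aw m ++ (aw n ++ aw m)

theorem xk_re : RE XK := RE.un (RE.re (by unfold XK aw; fun_prop))

theorem xk_md (w : List (Fin 61 × Bool)) (h : XK w) : (w.map (md 0 0)).prod = 1 := by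
  have h1 := (rw_ne 0 0).1
  have h2 : ∀ r s : En, el (rw 0 0) (0 : ℕ) r * el (rw 0 0) (0 : ℕ) s = el (rw 0 0) (0 : ℕ) (r + s) :=
    fun r s => by
      simp only [el, mul_add, add_mul, single_mul_single_of_ne _ _ _ _ h1.symm, single_add]
      simp [add_assoc]
  rcases h with rfl | ⟨n, m, rfl | rfl⟩
  · have : sh 0 = 1 := op_one (by simp) (by simp)
    simp [md, ml, this]
  all_goals simp only [List.map_append, List.prod_append, aw, md_E, h2, en2, el_zero]

instance : Infinite (G (Rl XK)) := .of_injective _ (aw_inj xk_md)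

theorem not_vf : ¬ ∃ H : Subgroup (G (Rl XK)), H.FiniteIndex ∧ IsFreeGroup H := by
  rintro ⟨H, h1, h2⟩
  obtain ⟨n, m, h3, h4⟩ := Finite.exists_ne_map_eq_of_infinite
    fun n => (mk (Rl XK) (aw n) : G (Rl XK) ⧸ H)
  have h5 : (mk (Rl XK) (aw n))⁻¹ = mk _ (aw n) :=
    inv_eq_of_mul_eq_one_right (mk_rel (R := Rl XK) (.inl (.inr ⟨n, n, .inl rfl⟩)))
  have h6 := QuotientGroup.eq.1 h4
  have h7 : (⟨_, h6⟩ : H) ^ 2 = 1 := Subtype.ext (by
    simp only [sq, Subgroup.coe_mul, h5]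
    exact mk_rel (R := Rl XK) (.inl (.inr ⟨n, m, .inr rfl⟩)))
  have h8 := congrArg (IsFreeGroup.toFreeGroup H) h7
  rw [map_pow, map_one, pow_eq_one_iff_left two_ne_zero,
    map_eq_one_iff _ (MulEquiv.injective _)] at h8
  exact h3 (aw_inj xk_md (inv_mul_eq_one.1 (congrArg Subtype.val h8)))

theorem gap : ∃ c, Computable c ∧ (pi c).Nonempty ∧ ∀ (k : ℕ) (X : Set (G (Rl XK) → Fin k)),
    X.Nonempty → ¬ (red (pi c) (hat (gn _) '' X) ∧ red (hat (gn _) '' X) (pi c)) := by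
  obtain ⟨c, B, h1, h2, h3, h4⟩ := cantor
  refine ⟨c, h1, ?_, fun k X _ ⟨a, b⟩ => rigid (X := XK) (by fun_prop) h2 (b.trans h3) ?_⟩
  · obtain ⟨d, hd⟩ := bu_ne (N := fun _ => 2) h2
    obtain ⟨_, -, -, h⟩ := h3
    exact (h d hd).imp fun _ h => h.1
  · rintro _ ⟨x, hx, rfl⟩
    refine ⟨k, x, rfl, fun h => ?_⟩
    have h5 : ∀ w, x (mk _ w) = x 1 := fun w => by
      simpa [show gn (Rl XK) 60 = 1 from mk_rel (R := Rl XK) (.inl (.inl rfl))] using h.pow w 1
    obtain ⟨y, h6, h7⟩ := a.comp ⟨x, hx, rfl⟩ ((Primrec.to_comp (f := fun n => ((decode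
      (α := List (Fin 61 × Bool)) n).map fun _ => (x 1).val).getD 0) (by fun_prop)).of_eq fun n => by
        unfold hat
        cases decode (α := List (Fin 61 × Bool)) n <;> simp [ev_eq, h5])
    exact h4 y h6 h7

end Pool.Agent.H.MP_1220fe_lc
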